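import Mathlib
import Pool.Agent.H68R2.BP.Props2

open scoped ComplexOrder InnerProductSpace ComplexConjugate Topology
open Finset Filter

noncomputable section

namespace H68R2.BP

open H759R2.Kad H744R2.KZ

namespace TcutAux

/-- the clipped logarithm of `(2 - t) / t` -/
def lgm (m : ℕ) (t : ℝ) : ℝ :=
  Real.log (max (2 - t) (Real.exp (-(m : ℝ)) * t)) -
    Real.log (max t (Real.exp (-(m : ℝ)) * (2 - t)))

/-- the cut-off function -/
def lchi (m : ℕ) (t : ℝ) : ℝ := min 1 (m - |lgm m t|)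

theorem e_le (m : ℕ) : Real.exp (-(m : ℝ)) ≤ 1 := by
  rw [Real.exp_le_one_iff]
  have : (0 : ℝ) ≤ m := Nat.cast_nonneg m
  linarith

theorem cases3 (m : ℕ) {t : ℝ} (h0 : 0 ≤ t) (h2 : t ≤ 2) :
    (lgm m t = -m ∧ 2 - t < Real.exp (-(m : ℝ)) * t) ∨
    (lgm m t = m ∧ t < Real.exp (-(m : ℝ)) * (2 - t)) ∨
    (lgm m t = Real.log (2 - t) - Real.log t ∧ 0 < t ∧ 0 < 2 - t ∧
      Real.exp (-(m : ℝ)) * t ≤ 2 - t ∧ Real.exp (-(m : ℝ)) * (2 - t) ≤ t) := by
  have he := Real.exp_pos (-(m : ℝ))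
  have he1 := e_le m
  by_cases hA : 2 - t < Real.exp (-(m : ℝ)) * t
  · left
    refine ⟨?_, hA⟩
    have ht : 0 < t := by
      by_contra hc
      have : t = 0 := le_antisymm (not_lt.mp hc) h0
      rw [this] at hA
      norm_num at hA
    have h3 : Real.exp (-(m : ℝ)) * (2 - t) ≤ t := by nlinarith
    unfold lgm
    rw [max_eq_right hA.le, max_eq_left h3, Real.log_mul he.ne' ht.ne', Real.log_exp]
    ring
  · right
    push Not at hA
    by_cases hB : t < Real.exp (-(m : ℝ)) * (2 - t)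
    · left
      refine ⟨?_, hB⟩
      have ht : 0 < 2 - t := by
        by_contra hc
        have : t = 2 := by linarith
        rw [this] at hB
        norm_num at hB
      unfold lgm
      rw [max_eq_left hA, max_eq_right hB.le, Real.log_mul he.ne' ht.ne', Real.log_exp]
      ring
    · right
      push Not at hB
      have ht : 0 < t := by
        by_contra hc
        have : t = 0 := le_antisymm (not_lt.mp hc) h0
        rw [this] at hB
        nlinarith
      have ht2 : 0 < 2 - t := by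
        by_contra hc
        have : t = 2 := by linarith
        rw [this] at hA
        nlinarith
      refine ⟨?_, ht, ht2, hA, hB⟩
      unfold lgm
      rw [max_eq_left hA, max_eq_left hB]

theorem lgm_abs (m : ℕ) {t : ℝ} (h0 : 0 ≤ t) (h2 : t ≤ 2) : |lgm m t| ≤ m := by
  have hm : (0 : ℝ) ≤ m := Nat.cast_nonneg m
  rcases cases3 m h0 h2 with ⟨h, -⟩ | ⟨h, -⟩ | ⟨h, ht, ht2, h3, h4⟩
  · rw [h, abs_neg, abs_of_nonneg hm]
  · rw [h, abs_of_nonneg hm]
  · have he := Real.exp_pos (-(m : ℝ))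
    have h5 := Real.log_le_log (mul_pos he ht) h3
    have h6 := Real.log_le_log (mul_pos he ht2) h4
    rw [Real.log_mul he.ne' ht.ne', Real.log_exp] at h5
    rw [Real.log_mul he.ne' ht2.ne', Real.log_exp] at h6
    rw [h, abs_le]
    constructor <;> linarith

theorem lgm_lt (m : ℕ) {t : ℝ} (h0 : 0 ≤ t) (h2 : t ≤ 2) (h : |lgm m t| < m) :
    0 < t ∧ 0 < 2 - t ∧ lgm m t = Real.log (2 - t) - Real.log t ∧
      ∀ k : ℕ, m ≤ k → lgm k t = lgm m t := by
  have hm : (0 : ℝ) ≤ m := Nat.cast_nonneg m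
  rcases cases3 m h0 h2 with ⟨h', -⟩ | ⟨h', -⟩ | ⟨h', ht, ht2, h3, h4⟩
  · rw [h', abs_neg, abs_of_nonneg hm] at h
    exact absurd h (lt_irrefl _)
  · rw [h', abs_of_nonneg hm] at h
    exact absurd h (lt_irrefl _)
  · refine ⟨ht, ht2, h', fun k hk => ?_⟩
    have hek : Real.exp (-(k : ℝ)) ≤ Real.exp (-(m : ℝ)) := by
      apply Real.exp_le_exp.mpr
      have : (m : ℝ) ≤ k := by exact_mod_cast hk
      linarith
    have h5 : Real.exp (-(k : ℝ)) * t ≤ 2 - t :=
      (mul_le_mul_of_nonneg_right hek ht.le).trans h3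
    have h6 : Real.exp (-(k : ℝ)) * (2 - t) ≤ t :=
      (mul_le_mul_of_nonneg_right hek ht2.le).trans h4
    rw [h']
    unfold lgm
    rw [max_eq_left h5, max_eq_left h6]

theorem lgm_big (m : ℕ) {t : ℝ} (h0 : 0 ≤ t) (h2 : t ≤ 2) (h : (m : ℝ) - 1 < |lgm m t|) :
    t * (2 - t) ≤ 4 * Real.exp (-((m : ℝ) - 1)) := by
  have he := Real.exp_pos (-(m : ℝ))
  have hee : Real.exp (-(m : ℝ)) ≤ Real.exp (-((m : ℝ) - 1)) := by
    apply Real.exp_le_exp.mpr; linarith
  rcases cases3 m h0 h2 with ⟨-, h'⟩ | ⟨-, h'⟩ | ⟨h', ht, ht2, h3, h4⟩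
  · have h5 : 2 - t ≤ Real.exp (-(m : ℝ)) * 2 := h'.le.trans (by nlinarith)
    have h6 : 0 ≤ 2 - t := by linarith
    nlinarith
  · have h5 : t ≤ Real.exp (-(m : ℝ)) * 2 := h'.le.trans (by nlinarith)
    have h6 : 0 ≤ 2 - t := by linarith
    nlinarith
  · have he2 := Real.exp_pos (-((m : ℝ) - 1))
    rw [h'] at h
    rcases lt_abs.mp h with h5 | h5
    · -- t small
      have h6 : Real.log t < Real.log (Real.exp (-((m : ℝ) - 1)) * (2 - t)) := by
        rw [Real.log_mul he2.ne' ht2.ne', Real.log_exp]; linarith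
      have h7 := (Real.log_lt_log_iff ht (mul_pos he2 ht2)).mp h6
      nlinarith
    · have h6 : Real.log (2 - t) < Real.log (Real.exp (-((m : ℝ) - 1)) * t) := by
        rw [Real.log_mul he2.ne' ht.ne', Real.log_exp]; linarith
      have h7 := (Real.log_lt_log_iff ht2 (mul_pos he2 ht)).mp h6
      nlinarith

theorem lgm_exp (m : ℕ) {t : ℝ} (h0 : 0 ≤ t) (h2 : t ≤ 2) (h : |lgm m t| < m) :
    Real.exp (lgm m t) * t = 2 - t ∧ Real.exp (lgm m t / 2) * t = Real.sqrt (t * (2 - t)) := by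
  obtain ⟨ht, ht2, h', -⟩ := lgm_lt m h0 h2 h
  have e1 : Real.exp (lgm m t) * t = 2 - t := by
    rw [h', Real.exp_sub, Real.exp_log ht, Real.exp_log ht2]
    field_simp
  refine ⟨e1, ?_⟩
  have e2 : (Real.exp (lgm m t / 2) * t) ^ 2 = t * (2 - t) := by
    rw [mul_pow, ← Real.exp_nat_mul]
    have : ((2 : ℕ) : ℝ) * (lgm m t / 2) = lgm m t := by push_cast; ring
    rw [this, pow_two t, ← mul_assoc, e1]
    ring
  rw [← e2, Real.sqrt_sq (by positivity)]

theorem lchi_nonneg (m : ℕ) {t : ℝ} (h0 : 0 ≤ t) (h2 : t ≤ 2) : 0 ≤ lchi m t := by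
  unfold lchi
  exact le_min zero_le_one (by have := lgm_abs m h0 h2; linarith)

theorem lchi_le (m : ℕ) (t : ℝ) : lchi m t ≤ 1 := min_le_left _ _

/-- either the cut-off vanishes or the logarithm is not clipped -/
theorem lchi_alt (m : ℕ) {t : ℝ} (h0 : 0 ≤ t) (h2 : t ≤ 2) : lchi m t = 0 ∨ |lgm m t| < m := by
  rcases (lgm_abs m h0 h2).lt_or_eq with h | h
  · exact Or.inr h
  · left
    unfold lchi
    rw [h, sub_self]
    exact min_eq_right zero_le_one

theorem lchi_small (m : ℕ) {t : ℝ} (h0 : 0 ≤ t) (h2 : t ≤ 2) :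
    |(1 - lchi m t) * (t * (2 - t))| ≤ 4 * Real.exp (-((m : ℝ) - 1)) := by
  have h3 : 0 ≤ 1 - lchi m t := by have := lchi_le m t; linarith
  have h4 : 1 - lchi m t ≤ 1 := by have := lchi_nonneg m h0 h2; linarith
  have h5 : 0 ≤ t * (2 - t) := mul_nonneg h0 (by linarith)
  rw [abs_of_nonneg (mul_nonneg h3 h5)]
  by_cases h : (m : ℝ) - 1 < |lgm m t|
  · have h6 := lgm_big m h0 h2 h
    nlinarith
  · push Not at h
    have : lchi m t = 1 := by
      unfold lchi
      exact min_eq_left (by linarith)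
    rw [this]
    have := Real.exp_pos (-((m : ℝ) - 1))
    simp
    positivity

theorem lgm_cont (m : ℕ) : ContinuousOn (lgm m) (Set.Icc 0 2) := by
  have he := Real.exp_pos (-(m : ℝ))
  unfold lgm
  apply ContinuousOn.sub
  · apply ContinuousOn.log (by fun_prop)
    intro t ht
    rcases ht.2.lt_or_eq with h | h
    · exact (lt_of_lt_of_le (by linarith) (le_max_left _ _)).ne'
    · exact (lt_of_lt_of_le (by rw [h]; positivity) (le_max_right _ _)).ne'
  · apply ContinuousOn.log (by fun_prop)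
    intro t ht
    rcases ht.1.lt_or_eq with h | h
    · exact (lt_of_lt_of_le h (le_max_left _ _)).ne'
    · exact (lt_of_lt_of_le (by rw [← h]; positivity) (le_max_right _ _)).ne'

theorem lchi_cont (m : ℕ) : ContinuousOn (lchi m) (Set.Icc 0 2) := by
  unfold lchi
  exact ContinuousOn.inf continuousOn_const (continuousOn_const.sub (lgm_cont m).abs)

end TcutAux

open TcutAux in
theorem prove_T_cut : T_cut := by
  intro H _ _ _ R T hR
  obtain ⟨R_sa, R_pos, R_le, R_inj, R_inj', T_sa, T_pos, T_sq, TR⟩ := hR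
  have hRs : IsSelfAdjoint R := R_sa
  have hTs : IsSelfAdjoint T := T_sa
  have hR0 : 0 ≤ R := by
    rw [ContinuousLinearMap.nonneg_iff_isPositive]
    exact ContinuousLinearMap.isPositive_def'.mpr ⟨hRs, fun x => R_pos x⟩
  have hT0 : 0 ≤ T := by
    rw [ContinuousLinearMap.nonneg_iff_isPositive]
    exact ContinuousLinearMap.isPositive_def'.mpr ⟨hTs, fun x => T_pos x⟩
  have h2R : (2 : ℂ) • (1 : H →L[ℂ] H) = algebraMap ℝ (H →L[ℂ] H) 2 := by
    rw [Algebra.algebraMap_eq_smul_one]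
    ext x
    simp only [ContinuousLinearMap.smul_apply]
    rw [← Complex.coe_smul]
    norm_num
  have hRle : R ≤ algebraMap ℝ (H →L[ℂ] H) 2 := by
    rw [← sub_nonneg, ← h2R, ContinuousLinearMap.nonneg_iff_isPositive]
    refine ContinuousLinearMap.isPositive_def'.mpr ⟨?_, fun x => ?_⟩
    · rw [h2R]
      exact (IsSelfAdjoint.algebraMap _ (IsSelfAdjoint.all _)).sub hRs
    · have h3 := R_le x
      have h4 : ⟪((2 : ℂ) • (1 : H →L[ℂ] H) - R) x, x⟫_ℂ = 2 * ⟪x, x⟫_ℂ - ⟪R x, x⟫_ℂ := by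
        rw [ContinuousLinearMap.sub_apply, ContinuousLinearMap.smul_apply,
          ContinuousLinearMap.one_apply, inner_sub_left, inner_smul_left, Complex.conj_ofNat]
      show 0 ≤ (⟪((2 : ℂ) • (1 : H →L[ℂ] H) - R) x, x⟫_ℂ).re
      have h5 : (⟪x, x⟫_ℂ) = ((‖x‖ ^ 2 : ℝ) : ℂ) := by
        rw [inner_self_eq_norm_sq_to_K]; push_cast; rfl
      rw [h4, h5, Complex.sub_re]
      have h6 : ((2 : ℂ) * ((‖x‖ ^ 2 : ℝ) : ℂ)).re = 2 * ‖x‖ ^ 2 := by
        rw [show (2 : ℂ) = ((2 : ℝ) : ℂ) by norm_num, ← Complex.ofReal_mul, Complex.ofReal_re]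
      rw [h6]
      linarith
  have hspec : spectrum ℝ R ⊆ Set.Icc 0 2 := by
    intro t ht
    exact ⟨spectrum_nonneg_of_nonneg hR0 ht, (le_algebraMap_iff_spectrum_le hRs).mp hRle t ht⟩
  have hg : ∀ m, ContinuousOn (lgm m) (spectrum ℝ R) := fun m => (lgm_cont m).mono hspec
  have hc : ∀ m, ContinuousOn (lchi m) (spectrum ℝ R) := fun m => (lchi_cont m).mono hspec
  have hR_id : cfc (fun t : ℝ => t) R = R := cfc_id' ℝ R hRs
  have hsub : cfc (fun t : ℝ => 2 - t) R = (2 : ℂ) • 1 - R := by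
    rw [cfc_sub (fun _ => (2 : ℝ)) (fun t => t) R, hR_id, cfc_const (2 : ℝ) R hRs, ← h2R]
  have hprod : cfc (fun t : ℝ => t * (2 - t)) R = R * ((2 : ℂ) • 1 - R) := by
    rw [cfc_mul (fun t : ℝ => t) (fun t => 2 - t) R, hR_id, hsub]
  have hT : T = cfc (fun t : ℝ => Real.sqrt (t * (2 - t))) R := by
    have hS0 : 0 ≤ cfc (fun t : ℝ => Real.sqrt (t * (2 - t))) R :=
      cfc_nonneg fun t _ => Real.sqrt_nonneg _
    have hSS : cfc (fun t : ℝ => Real.sqrt (t * (2 - t))) R *
        cfc (fun t : ℝ => Real.sqrt (t * (2 - t))) R = T * T := by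
      rw [T_sq, ← hprod, ← cfc_mul _ _ R]
      apply cfc_congr
      intro t ht
      have := hspec ht
      exact Real.mul_self_sqrt (mul_nonneg this.1 (by linarith [this.2]))
    rw [← CFC.sqrt_mul_self T hT0, ← hSS, CFC.sqrt_mul_self _ hS0]
  have hexp : ∀ f : ℝ → ℝ, ContinuousOn f (spectrum ℝ R) →
      NormedSpace.exp (cfc f R) = cfc (fun t => Real.exp (f t)) R := by
    intro f hf
    rw [← CFC.real_exp_eq_normedSpace_exp (cfc_predicate f R), ← cfc_comp' Real.exp f R
      Real.continuous_exp.continuousOn hf]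
  have hge : ∀ m, ContinuousOn (fun t => Real.exp (lgm m t)) (spectrum ℝ R) := fun m =>
    Real.continuous_exp.comp_continuousOn (hg m)
  have hge2 : ∀ m, ContinuousOn (fun t => Real.exp (lgm m t / 2)) (spectrum ℝ R) := fun m =>
    Real.continuous_exp.comp_continuousOn ((hg m).div_const 2)
  refine ⟨fun m => cfc (lgm m) R, fun m => cfc (lchi m) R, ?_, ?_, ?_, ?_, ?_, ?_, ?_, ?_, ?_, ?_,
    ?_, ?_⟩
  · intro m
    exact (cfc_predicate (lgm m) R : IsSelfAdjoint _)
  · intro m
    exact (cfc_predicate (lchi m) R : IsSelfAdjoint _)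
  · intro m
    apply norm_cfc_le zero_le_one
    intro t ht
    have h2 := hspec ht
    rw [Real.norm_eq_abs, abs_of_nonneg (lchi_nonneg m h2.1 h2.2)]
    exact lchi_le m t
  · intro m
    have := cfc_commute_cfc (lgm m) (fun t : ℝ => t) R
    rw [hR_id] at this
    exact this
  · intro m
    have := cfc_commute_cfc (lchi m) (fun t : ℝ => t) R
    rw [hR_id] at this
    exact this
  · intro m k
    exact cfc_commute_cfc (lgm m) (lchi k) R
  · intro m k
    exact cfc_commute_cfc (lgm m) (lgm k) R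
  · intro m k
    exact cfc_commute_cfc (lchi m) (lchi k) R
  · intro m
    beta_reduce
    rw [hexp _ (hg m), ← hsub]
    have e1 : cfc (fun t => Real.exp (lgm m t)) R * R =
        cfc (fun t => Real.exp (lgm m t) * t) R := by
      rw [cfc_mul (fun t => Real.exp (lgm m t)) (fun t => t) R (hge m), hR_id]
    rw [e1, ← cfc_mul (fun t => Real.exp (lgm m t) * t) (lchi m) R ((hge m).mul continuousOn_id)
      (hc m), ← cfc_mul (fun t => 2 - t) (lchi m) R (by fun_prop) (hc m)]
    apply cfc_congr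
    intro t ht
    have h2 := hspec ht
    beta_reduce
    rcases lchi_alt m h2.1 h2.2 with h | h
    · rw [h, mul_zero, mul_zero]
    · rw [(lgm_exp m h2.1 h2.2 h).1]
  · intro m
    beta_reduce
    have e0 : (1 / 2 : ℂ) • cfc (lgm m) R = cfc (fun t => lgm m t / 2) R := by
      have : (fun t => lgm m t / 2) = fun t => (1 / 2 : ℝ) * lgm m t := by
        funext t; ring
      rw [this, cfc_const_mul (1 / 2 : ℝ) (lgm m) R (hg m)]
      rw [← Complex.coe_smul]
      norm_num
    rw [e0, hexp _ ((hg m).div_const 2), hT]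
    have e1 : cfc (fun t => Real.exp (lgm m t / 2)) R * R =
        cfc (fun t => Real.exp (lgm m t / 2) * t) R := by
      rw [cfc_mul (fun t => Real.exp (lgm m t / 2)) (fun t => t) R (hge2 m), hR_id]
    rw [e1, ← cfc_mul (fun t => Real.exp (lgm m t / 2) * t) (lchi m) R
      ((hge2 m).mul continuousOn_id) (hc m),
      ← cfc_mul (fun t => Real.sqrt (t * (2 - t))) (lchi m) R (by fun_prop) (hc m)]
    apply cfc_congr
    intro t ht
    have h2 := hspec ht
    beta_reduce
    rcases lchi_alt m h2.1 h2.2 with h | h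
    · rw [h, mul_zero, mul_zero]
    · rw [(lgm_exp m h2.1 h2.2 h).2]
  · intro m k hmk
    beta_reduce
    rw [← cfc_mul (lgm k) (lchi m) R (hg k) (hc m), ← cfc_mul (lgm m) (lchi m) R (hg m) (hc m)]
    apply cfc_congr
    intro t ht
    have h2 := hspec ht
    beta_reduce
    rcases lchi_alt m h2.1 h2.2 with h | h
    · rw [h, mul_zero, mul_zero]
    · rw [(lgm_lt m h2.1 h2.2 h).2.2.2 k hmk]
  · intro x
    obtain ⟨D, hD⟩ : ∃ D, D = R * ((2 : ℂ) • 1 - R) := ⟨_, rfl⟩
    have hDsa : IsSelfAdjoint D := by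
      rw [hD, ← hprod]; exact cfc_predicate _ R
    have hDinj : ∀ y, D y = 0 → y = 0 := by
      intro y hy
      rw [hD] at hy
      have h1 := R_inj _ hy
      exact R_inj' y h1
    have hdense : Dense (Set.range D) := by
      have h1 : (LinearMap.range D.toLinearMap)ᗮ = ⊥ := by
        rw [ContinuousLinearMap.orthogonal_range]
        rw [Submodule.eq_bot_iff]
        intro y hy
        apply hDinj
        have h2 : ContinuousLinearMap.adjoint D = D := hDsa
        rw [h2] at hy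
        exact hy
      have h2 := Submodule.topologicalClosure_eq_top_iff.mpr h1
      have h3 := Submodule.dense_iff_topologicalClosure_eq_top.mpr h2
      exact h3
    have hsm : ∀ m : ℕ, ‖(1 - cfc (lchi m) R) * D‖ ≤ 4 * Real.exp (-((m : ℝ) - 1)) := by
      intro m
      have e1 : (1 - cfc (lchi m) R) * D = cfc (fun t => (1 - lchi m t) * (t * (2 - t))) R := by
        rw [cfc_mul (fun t => 1 - lchi m t) (fun t => t * (2 - t)) R
          (continuousOn_const.sub (hc m)) (by fun_prop), hprod, ← hD,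
          cfc_sub (fun _ => (1 : ℝ)) (lchi m) R continuousOn_const (hc m), cfc_const (1 : ℝ) R hRs,
          map_one]
      rw [e1]
      apply norm_cfc_le (by positivity)
      intro t ht
      have h2 := hspec ht
      exact lchi_small m h2.1 h2.2
    rw [Metric.tendsto_atTop]
    intro ε hε
    obtain ⟨y, hy⟩ : ∃ y, dist x (D y) < ε / 4 := by
      have := hdense.exists_dist_lt x (show 0 < ε / 4 by positivity)
      obtain ⟨z, ⟨y, rfl⟩, hz⟩ := this
      exact ⟨y, hz⟩
    have hlim : Tendsto (fun m : ℕ => 4 * Real.exp (-((m : ℝ) - 1)) * ‖y‖) atTop (𝓝 0) := by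
      have h1 : Tendsto (fun m : ℕ => Real.exp (-((m : ℝ) - 1))) atTop (𝓝 0) := by
        apply Real.tendsto_exp_neg_atTop_nhds_zero.comp
        exact tendsto_atTop_add_const_right _ _ tendsto_natCast_atTop_atTop
      have := (h1.const_mul 4).mul_const ‖y‖
      simpa using this
    obtain ⟨N, hN⟩ := (Metric.tendsto_atTop.mp hlim) (ε / 4) (by positivity)
    refine ⟨N, fun m hm => ?_⟩
    have h3 := hN m hm
    rw [Real.dist_0_eq_abs] at h3
    have h4 := lt_of_le_of_lt (le_abs_self _) h3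
    have hcn : ‖cfc (lchi m) R‖ ≤ 1 := by
      apply norm_cfc_le zero_le_one
      intro t ht
      have h2 := hspec ht
      rw [Real.norm_eq_abs, abs_of_nonneg (lchi_nonneg m h2.1 h2.2)]
      exact lchi_le m t
    have e2 : x - cfc (lchi m) R x = (x - D y) - cfc (lchi m) R (x - D y) +
        ((1 - cfc (lchi m) R) * D) y := by
      simp only [ContinuousLinearMap.mul_apply, ContinuousLinearMap.sub_apply,
        ContinuousLinearMap.one_apply, map_sub]
      abel
    rw [dist_comm, dist_eq_norm, e2]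
    have h5 : ‖x - D y‖ < ε / 4 := by rw [← dist_eq_norm]; exact hy
    have h6 : ‖cfc (lchi m) R (x - D y)‖ ≤ ‖x - D y‖ := by
      refine (ContinuousLinearMap.le_opNorm _ _).trans ?_
      nlinarith [norm_nonneg (x - D y)]
    have h7 : ‖((1 - cfc (lchi m) R) * D) y‖ ≤ 4 * Real.exp (-((m : ℝ) - 1)) * ‖y‖ :=
      (ContinuousLinearMap.le_opNorm _ _).trans
        (mul_le_mul_of_nonneg_right (hsm m) (norm_nonneg _))
    have h8 := norm_add_le ((x - D y) - cfc (lchi m) R (x - D y)) (((1 - cfc (lchi m) R) * D) y)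
    have h9 := norm_sub_le (x - D y) (cfc (lchi m) R (x - D y))
    linarith

end H68R2.BP
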