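import Mathlib
import Pool.Agent.H97R2.BP.Defs
import Pool.Agent.H97R2.BP.Defs2

open scoped ComplexOrder InnerProductSpace ComplexConjugate TensorProduct
open Finset H759R2.Kad H710R2.DP

noncomputable section

namespace H97R2.BP

namespace ZZ96

variable {H : Type} [NormedAddCommGroup H] [InnerProductSpace ℂ H]

/-- weak lower semicontinuity of `∑ ‖v i‖ ^ 2` -/
theorem lsc {I : Type} (U : Filter I) [U.NeBot] {ι : Type} [Fintype ι] (w : I → ι → H) (v : ι → H) (c : ℝ)
    (hw : ∀ F, ∑ i, ‖w F i‖ ^ 2 ≤ c)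
    (hlim : ∀ i ζ, Filter.Tendsto (fun F => ⟪ζ, w F i⟫_ℂ) U (nhds ⟪ζ, v i⟫_ℂ)) :
    ∑ i, ‖v i‖ ^ 2 ≤ c := by
  have h1 : Filter.Tendsto (fun F => ∑ i, (⟪v i, w F i⟫_ℂ).re) U (nhds (∑ i, (⟪v i, v i⟫_ℂ).re)) := by
    apply tendsto_finset_sum
    intro i _
    exact (Complex.continuous_re.tendsto _).comp (hlim i (v i))
  have h2 : ∑ i, (⟪v i, v i⟫_ℂ).re = ∑ i, ‖v i‖ ^ 2 := by
    apply Finset.sum_congr rfl
    intro i _
    have := inner_self_eq_norm_sq (𝕜 := ℂ) (v i)
    exact this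
  rw [h2] at h1
  have h3 : ∀ F, ∑ i, (⟪v i, w F i⟫_ℂ).re ≤ ((∑ i, ‖v i‖ ^ 2) + c) / 2 := by
    intro F
    have h4 : ∑ i, (⟪v i, w F i⟫_ℂ).re ≤ ∑ i, (‖v i‖ ^ 2 + ‖w F i‖ ^ 2) / 2 := by
      apply Finset.sum_le_sum
      intro i _
      have h5 : (⟪v i, w F i⟫_ℂ).re ≤ ‖v i‖ * ‖w F i‖ :=
        (Complex.re_le_norm _).trans (norm_inner_le_norm _ _)
      nlinarith [sq_nonneg (‖v i‖ - ‖w F i‖)]
    rw [← Finset.sum_div, Finset.sum_add_distrib] at h4
    have := hw F
    linarith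
  have h6 := le_of_tendsto' h1 h3
  linarith

end ZZ96

open ZZ96

theorem bp_dec (h1 : Z_decfin) (h2 : Z_cmp) (h3 : Z_ulim) : Z_dec := by
  classical
  intro H _ _ _ C hC ι _ a ρ t hρ ht hnorm
  -- finite dimensional subspaces
  set E : Finset H → Submodule ℂ H := fun F => Submodule.span ℂ (F : Set H) with hE
  have hfd : ∀ F, FiniteDimensional ℂ (E F) := fun F => FiniteDimensional.span_finset ℂ F
  -- the decompositions
  have hdec : ∀ F : Finset H, ∃ b : ι → (E F →L[ℂ] E F), ColB (fun i => (b i).adjoint) (t * ρ) ∧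
      ColB (fun i => ((E F).orthogonalProjectionOnto ∘L a i ∘L (E F).subtypeL) - b i) (ρ / t) := by
    intro F
    apply h1 (E F) ι (fun i => (E F).orthogonalProjectionOnto ∘L a i ∘L (E F).subtypeL) ρ t hρ ht
    intro d e e' g f hg hf hg1 hf1
    have ho : Orthonormal ℂ (fun k => (e k : H)) := by
      have := e.orthonormal
      exact this.comp_linearIsometry (E F).subtypeₗᵢ
    have ho' : Orthonormal ℂ (fun k => (e' k : H)) := by
      have := e'.orthonormal
      exact this.comp_linearIsometry (E F).subtypeₗᵢ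
    have key := h2 H C hC ι a ρ hnorm d (fun k => (e k : H)) (fun k => (e' k : H)) ho ho' g f hg hf hg1 hf1
    refine le_trans (le_of_eq ?_) key
    refine Finset.sum_congr rfl fun i _ => Finset.sum_congr rfl fun k _ => Finset.sum_congr rfl fun l _ => ?_
    congr 3
    exact Submodule.inner_orthogonalProjectionOnto_eq_of_mem_left _ _
  choose b hb1 hb2 using hdec
  set B : Finset H → ι → (H →L[ℂ] H) := fun F i => (E F).subtypeL ∘L b F i ∘L (E F).orthogonalProjectionOnto with hB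
  have hPn : ∀ F (η : H), ‖(E F).orthogonalProjectionOnto η‖ ≤ ‖η‖ := fun F η =>
    (E F).norm_orthogonalProjectionOnto_apply_le η
  have hBstar : ∀ F i (η : H), star (B F i) η = ((b F i).adjoint ((E F).orthogonalProjectionOnto η) : H) := by
    intro F i η
    apply ext_inner_left ℂ
    intro ζ
    rw [ContinuousLinearMap.star_eq_adjoint, ContinuousLinearMap.adjoint_inner_right]
    show ⟪((b F i ((E F).orthogonalProjectionOnto ζ) : E F) : H), η⟫_ℂ = _
    have e1 : ⟪((b F i ((E F).orthogonalProjectionOnto ζ) : E F) : H), η⟫_ℂ =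
        ⟪b F i ((E F).orthogonalProjectionOnto ζ), (E F).orthogonalProjectionOnto η⟫_ℂ :=
      (Submodule.inner_orthogonalProjectionOnto_eq_of_mem_left _ _).symm
    have e2 : ⟪ζ, (((b F i).adjoint ((E F).orthogonalProjectionOnto η) : E F) : H)⟫_ℂ =
        ⟪(E F).orthogonalProjectionOnto ζ, (b F i).adjoint ((E F).orthogonalProjectionOnto η)⟫_ℂ :=
      (Submodule.inner_orthogonalProjectionOnto_eq_of_mem_right _ _).symm
    rw [e1, e2, ContinuousLinearMap.adjoint_inner_right]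
  have hcol1 : ∀ F (η : H), ∑ i, ‖star (B F i) η‖ ^ 2 ≤ t * ρ * ‖η‖ ^ 2 := by
    intro F η
    have := hb1 F ((E F).orthogonalProjectionOnto η)
    have e : ∑ i, ‖star (B F i) η‖ ^ 2 = ∑ i, ‖(b F i).adjoint ((E F).orthogonalProjectionOnto η)‖ ^ 2 := by
      refine Finset.sum_congr rfl fun i _ => ?_
      rw [hBstar, Submodule.coe_norm]
    rw [e]
    refine this.trans ?_
    have h5 := hPn F η
    have h6 : ‖(E F).orthogonalProjectionOnto η‖ ^ 2 ≤ ‖η‖ ^ 2 := pow_le_pow_left₀ (norm_nonneg _) h5 2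
    exact mul_le_mul_of_nonneg_left h6 (by positivity)
  have hcol2 : ∀ F (η : H), ∑ i, ‖((E F).orthogonalProjectionOnto (a i ((E F).orthogonalProjectionOnto η : H)) : H)
      - B F i η‖ ^ 2 ≤ ρ / t * ‖η‖ ^ 2 := by
    intro F η
    have := hb2 F ((E F).orthogonalProjectionOnto η)
    have e : ∑ i, ‖((E F).orthogonalProjectionOnto (a i ((E F).orthogonalProjectionOnto η : H)) : H) - B F i η‖ ^ 2 =
        ∑ i, ‖(((E F).orthogonalProjectionOnto ∘L a i ∘L (E F).subtypeL) - b F i) ((E F).orthogonalProjectionOnto η)‖ ^ 2 := by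
      refine Finset.sum_congr rfl fun i _ => ?_
      rfl
    rw [e]
    refine this.trans ?_
    have h5 := hPn F η
    have h6 : ‖(E F).orthogonalProjectionOnto η‖ ^ 2 ≤ ‖η‖ ^ 2 := pow_le_pow_left₀ (norm_nonneg _) h5 2
    exact mul_le_mul_of_nonneg_left h6 (by positivity)
  have hBn : ∀ F i, ‖B F i‖ ≤ √(t * ρ) := by
    intro F i
    rw [← norm_star]
    apply ContinuousLinearMap.opNorm_le_bound _ (Real.sqrt_nonneg _)
    intro η
    have h5 : ‖star (B F i) η‖ ^ 2 ≤ t * ρ * ‖η‖ ^ 2 :=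
      (Finset.single_le_sum (f := fun i => ‖star (B F i) η‖ ^ 2) (fun _ _ => sq_nonneg _)
        (Finset.mem_univ i)).trans (hcol1 F η)
    refine (sq_le_sq₀ (norm_nonneg _) (by positivity)).mp ?_
    rw [mul_pow, Real.sq_sqrt (by positivity)]
    exact h5
  -- the limits
  set U : Ultrafilter (Finset H) := Ultrafilter.of Filter.atTop with hU
  have hUle : (U : Filter (Finset H)) ≤ Filter.atTop := Ultrafilter.of_le _
  have hlim : ∀ i, ∃ S : H →L[ℂ] H, ‖S‖ ≤ √(t * ρ) ∧ ∀ ξ η : H,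
      Filter.Tendsto (fun F => ⟪η, B F i ξ⟫_ℂ) U (nhds ⟪η, S ξ⟫_ℂ) :=
    fun i => h3 H (Finset H) U (fun F => B F i) _ (fun F => hBn F i)
  choose S _ hS using hlim
  refine ⟨S, ?_, ?_⟩
  · intro η
    apply lsc (U : Filter (Finset H)) (fun F i => star (B F i) η) (fun i => star (S i) η) _ (fun F => hcol1 F η)
    intro i ζ
    have e1 : (fun F => ⟪ζ, star (B F i) η⟫_ℂ) = fun F => conj ⟪η, B F i ζ⟫_ℂ := by
      funext F
      rw [ContinuousLinearMap.star_eq_adjoint, ContinuousLinearMap.adjoint_inner_right, inner_conj_symm]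
    have e2 : ⟪ζ, star (S i) η⟫_ℂ = conj ⟪η, S i ζ⟫_ℂ := by
      rw [ContinuousLinearMap.star_eq_adjoint, ContinuousLinearMap.adjoint_inner_right, inner_conj_symm]
    rw [e1, e2]
    exact (Complex.continuous_conj.tendsto _).comp (hS i ζ η)
  · intro η
    apply lsc (U : Filter (Finset H)) (fun F i => ((E F).orthogonalProjectionOnto
      (a i ((E F).orthogonalProjectionOnto η : H)) : H) - B F i η) (fun i => (a i - S i) η) _ (fun F => hcol2 F η)
    intro i ζ
    have e2 : ⟪ζ, (a i - S i) η⟫_ℂ = ⟪ζ, a i η⟫_ℂ - ⟪ζ, S i η⟫_ℂ := by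
      rw [sub_apply, inner_sub_right]
    have e1 : (fun F => ⟪ζ, ((E F).orthogonalProjectionOnto (a i ((E F).orthogonalProjectionOnto η : H)) : H) - B F i η⟫_ℂ)
        = fun F => ⟪ζ, ((E F).orthogonalProjectionOnto (a i ((E F).orthogonalProjectionOnto η : H)) : H)⟫_ℂ - ⟪ζ, B F i η⟫_ℂ := by
      funext F
      rw [inner_sub_right]
    rw [e1, e2]
    apply Filter.Tendsto.sub _ (hS i η ζ)
    apply tendsto_const_nhds.congr'
    have hev : ∀ᶠ F : Finset H in (U : Filter (Finset H)), ({ζ, η} : Finset H) ≤ F :=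
      hUle (Filter.eventually_ge_atTop _)
    filter_upwards [hev] with F hF
    have hζ : ζ ∈ E F := Submodule.subset_span (hF (by simp))
    have hη : η ∈ E F := Submodule.subset_span (hF (by simp))
    have hη' : (((E F).orthogonalProjectionOnto η : E F) : H) = η :=
      Submodule.starProjection_eq_self_iff.mpr hη
    rw [hη']
    exact (Submodule.inner_orthogonalProjectionOnto_eq_of_mem_left (⟨ζ, hζ⟩ : E F) (a i η)).symm

end H97R2.BP
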